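import Pool.Agent.K1H84.RD.Stm

set_option autoImplicit false

/-! # Integers with restricted digits (piece RD1 for helper84) -/

namespace Pool.Agent.K1H10.RD

open Finset
open Pool.Agent.W301.SS
open Pool.Agent.H807R2.Dav
open Pool.Agent.K1H84.RD

theorem ee_add' (x y : ℝ) : ee (x + y) = ee x * ee y := by
  unfold ee
  rw [← Complex.exp_add]
  congr 1
  push_cast
  ring

theorem t_DSET : S_DSET := by
  intro g D hg hD
  have hg0 : 0 < g := by omega
  have h1 : ∀ k, ∀ s ∈ dset g D k, s < g ^ k := by
    intro k
    induction k with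
    | zero =>
      intro s hs
      have : s = 0 := by simpa [dset] using hs
      rw [this]
      norm_num
    | succ k ih =>
      intro s hs
      unfold dset at hs
      rw [mem_image] at hs
      obtain ⟨⟨v, d⟩, hvd, rfl⟩ := hs
      rw [mem_product] at hvd
      have h2 := ih v hvd.1
      have h3 : d < g := mem_range.1 (hD k hvd.2)
      dsimp only
      calc v + d * g ^ k < g ^ k + d * g ^ k := by omega
        _ = (d + 1) * g ^ k := by ring
        _ ≤ g * g ^ k := Nat.mul_le_mul_right _ h3
        _ = g ^ (k + 1) := by ring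
  have hinj : ∀ k, Set.InjOn (fun x : ℕ × ℕ => x.1 + x.2 * g ^ k)
      (((dset g D k) ×ˢ (D k) : Finset (ℕ × ℕ)) : Set (ℕ × ℕ)) := by
    rintro k ⟨v, d⟩ h ⟨v', d'⟩ h' heq
    rw [mem_coe, mem_product] at h h'
    have hgk : 0 < g ^ k := pow_pos hg0 k
    have h2 := h1 k v h.1
    have h3 := h1 k v' h'.1
    dsimp only at heq
    have e1 : (v + d * g ^ k) / g ^ k = d := by
      rw [Nat.add_mul_div_right _ _ hgk, Nat.div_eq_of_lt h2, zero_add]
    have e2 : (v' + d' * g ^ k) / g ^ k = d' := by
      rw [Nat.add_mul_div_right _ _ hgk, Nat.div_eq_of_lt h3, zero_add]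
    have hd : d = d' := by rw [← e1, ← e2, heq]
    subst hd
    have hv : v = v' := by omega
    rw [hv]
  have h2 : ∀ k, (dset g D k).card = ∏ i ∈ range k, (D i).card := by
    intro k
    induction k with
    | zero => simp [dset]
    | succ k ih =>
      rw [prod_range_succ, ← ih]
      have e : dset g D (k + 1) = ((dset g D k) ×ˢ (D k)).image (fun x => x.1 + x.2 * g ^ k) := rfl
      rw [e, card_image_of_injOn (hinj k), card_product]
  refine ⟨h1, h2, fun k x => ?_, fun k w hw => ?_⟩
  · induction k with
    | zero => simp [dset, FA, ee]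
    | succ k ih =>
      rw [prod_range_succ, ← ih]
      have e1 : FA (dset g D (k + 1)) x =
          ∑ a ∈ (dset g D k) ×ˢ (D k), ee (((a.1 + a.2 * g ^ k : ℕ) : ℝ) * x) := by
        unfold FA
        conv_lhs => rw [dset]
        rw [sum_image (hinj k)]
      rw [e1, sum_product]
      unfold FA
      rw [sum_mul_sum]
      refine sum_congr rfl fun v _ => sum_congr rfl fun d _ => ?_
      rw [← ee_add']
      congr 1
      push_cast
      ring
  · have key : ∀ j k, j ≤ k → ∀ s ∈ dset g D k, s < g ^ j → s ∈ dset g D j := by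
      intro j k hjk
      induction k, hjk using Nat.le_induction with
      | base => exact fun s hs _ => hs
      | succ k hk ih =>
        intro s hs hsj
        refine ih s ?_ hsj
        have h3 : s < g ^ k := hsj.trans_le (Nat.pow_le_pow_right hg0 hk)
        unfold dset at hs
        rw [mem_image] at hs
        obtain ⟨⟨v, d⟩, hvd, rfl⟩ := hs
        rw [mem_product] at hvd
        dsimp only at hvd h3 ⊢
        have hd : d = 0 := by
          by_contra hd
          have : 1 * g ^ k ≤ d * g ^ k := Nat.mul_le_mul_right _ (Nat.pos_of_ne_zero hd)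
          omega
        rw [hd, zero_mul, add_zero]
        exact hvd.1
    rw [← h2]
    refine card_le_card fun s hs => ?_
    rw [mem_filter] at hs
    exact key (k - w) k (Nat.sub_le _ _) s hs.1 hs.2

end Pool.Agent.K1H10.RD
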